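import Pool.Agent.Lib.helper10.RedBlue
import Pool.Agent.Lib.helper10.ChipRed

namespace Pool.Agent.Results.MP_6f953e_lc.NPHard

open Pool.Agent.Cx Finset

/-- the weight of the pair `u < v` -/
def wt (W : List (List ℕ)) (u v : ℕ) : ℕ := (W.getD u []).getD v 0

/-- a matching: pairwise disjoint edges `(u, v)`, written with `u < v` -/
def IsMatching (E : ℕ → ℕ → Prop) (m : Finset (ℕ × ℕ)) : Prop :=
  (∀ p ∈ m, p.1 < p.2 ∧ E p.1 p.2) ∧
    ∀ p ∈ m, ∀ q ∈ m, p ≠ q → p.1 ≠ q.1 ∧ p.1 ≠ q.2 ∧ p.2 ≠ q.1 ∧ p.2 ≠ q.2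

/-- a fractional weighted vertex cover -/
def IsCover (E : ℕ → ℕ → Prop) (W : List (List ℕ)) (y : ℕ → ℝ) : Prop :=
  (∀ v, 0 ≤ y v) ∧ ∀ u v, u < v → E u v → (wt W u v : ℝ) ≤ y u + y v

/-- the maximum weight of a matching equals the minimum value of a fractional cover -/
def Stable (n : ℕ) (E : ℕ → ℕ → Prop) (W : List (List ℕ)) : Prop :=
  ∃ t : ℝ, IsGreatest {t | ∃ m, IsMatching E m ∧ t = ∑ p ∈ m, (wt W p.1 p.2 : ℝ)} t ∧
    IsLeast {t | ∃ y, IsCover E W y ∧ t = ∑ v ∈ range n, y v} t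

/-- at most `k` non-edges can be added so that the weighted graph becomes stable -/
def EdgeAdd (I : List (List Bool) × List (List ℕ) × ℕ) : Prop :=
  IsGraph I.1 ∧ ∃ F : Finset (ℕ × ℕ), F.card ≤ I.2.2 ∧
    (∀ p ∈ F, p.1 < p.2 ∧ p.2 < I.1.length ∧ ¬ Entry I.1 p.1 p.2) ∧
    Stable I.1.length (fun u v => Entry I.1 u v ∨ (u, v) ∈ F) I.2.1

open Pool.Agent.Chip

lemma weak {E : ℕ → ℕ → Prop} {m : Finset (ℕ × ℕ)} (h : IsMatching E m) {n : ℕ}
    (hn : ∀ p ∈ m, p.2 < n) {w : ℕ × ℕ → ℝ} {y : ℕ → ℝ} (hy : ∀ v, 0 ≤ y v)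
    (hw : ∀ p ∈ m, w p ≤ y p.1 + y p.2) : ∑ p ∈ m, w p ≤ ∑ v ∈ range n, y v := by
  refine (sum_le_sum hw).trans ?_
  rw [sum_add_distrib, ← sum_image (g := Prod.fst) (f := y) fun p hp q hq e => by
      by_contra c; exact (h.2 p hp q hq c).1 e,
    ← sum_image (g := Prod.snd) (f := y) fun p hp q hq e => by
      by_contra c; exact (h.2 p hp q hq c).2.2.2 e, ← sum_union]
  · refine sum_le_sum_of_subset_of_nonneg (fun v hv => ?_) fun _ _ _ => hy _
    simp only [mem_union, mem_image, mem_range] at hv ⊢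
    rcases hv with ⟨p, hp, rfl⟩ | ⟨p, hp, rfl⟩
    exacts [(h.1 p hp).1.trans (hn p hp), hn p hp]
  · simp only [disjoint_left, mem_image]
    rintro _ ⟨p, hp, rfl⟩ ⟨q, hq, e⟩
    by_cases c : p = q
    · have := (h.1 p hp).1; rw [← c] at e; omega
    · exact (h.2 p hp q hq c).2.1 e.symm

def ww (M : List (List Bool)) (x y : ℕ) : ℕ :=
  if y = 4 * M.length then (if x % 4 = 0 ∨ x % 4 = 3 then M.length else 0)
  else if x / 4 = y / 4 then
    (if y = x + 1 then 2 * M.length else if y = x + 3 then 4 * M.length + 2 else 0)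
  else if x % 4 = 3 ∧ y % 4 = 0 ∧ ent M (x / 4) (y / 4) = false then 2 * M.length + 1 else 0

def ed (M : List (List Bool)) (x y : ℕ) : Prop := x < y ∧ ww M x y ≠ 0 ∧ ¬ (y = x + 3 ∧ x % 4 = 0)

instance (M : List (List Bool)) (x y : ℕ) : Decidable (ed M x y) := by unfold ed; infer_instance

def red (I : List (List Bool) × ℕ) : List (List Bool) × List (List ℕ) × ℕ :=
  (mat (List.range (4 * I.1.length + 1)) fun x y => decide (ed I.1 x y ∨ ed I.1 y x),
    matN (4 * I.1.length + 1) (ww I.1), I.1.length - I.2)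

@[fun_prop] lemma ww_pt {α : Type} [Enc α] {M : α → List (List Bool)} {x y : α → ℕ} (hM : PT M)
    (hx : PT x) (hy : PT y) : PT fun a => ww (M a) (x a) (y a) := by
  unfold ww
  exact PP.ite (by fun_prop) (PP.ite (by fun_prop) (by fun_prop) (by fun_prop))
    (PP.ite (by fun_prop) (PP.ite (by fun_prop) (by fun_prop) (PP.ite (by fun_prop) (by fun_prop)
    (by fun_prop))) (PP.ite (by fun_prop) (by fun_prop) (by fun_prop)))

lemma red_pt : PT red := by
  unfold red matN
  exact PT.pair (PT.mat (by fun_prop) (PP.decide (by unfold ed; fun_prop)))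
    (PT.pair (PT.map (PT.map (by fun_prop) (by fun_prop)) (by fun_prop)) (by fun_prop))

def yy (N : ℕ) (X : Finset ℕ) (e : ℕ → ℕ) (x : ℕ) : ℕ :=
  if x = 4 * N then 0 else if x / 4 ∈ X then (if x % 4 = 0 ∨ x % 4 = 3 then 2 * N + 1 else N)
  else if x % 2 = 0 then e (x / 4) else 2 * N - e (x / 4)

lemma sum4 (N : ℕ) (y : ℕ → ℝ) : ∑ v ∈ range (4 * N + 1), y v =
    ∑ u ∈ range N, (y (4 * u) + y (4 * u + 1) + y (4 * u + 2) + y (4 * u + 3)) + y (4 * N) := by
  rw [sum_range_succ, sum_mul_range]; simp [sum_range_succ]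

lemma sum_yy {N : ℕ} {X : Finset ℕ} {e : ℕ → ℕ} (he : ∀ u < N, e u ≤ 2 * N) :
    ∑ v ∈ range (4 * N + 1), (yy N X e v : ℝ) =
      ∑ u ∈ range N, if u ∈ X then (6 * N + 2 : ℝ) else 4 * N := by
  rw [sum4, show yy N X e (4 * N) = 0 by simp [yy], Nat.cast_zero, add_zero]
  refine sum_congr rfl fun u hu => ?_
  have hu := mem_range.1 hu
  have : yy N X e (4 * u) + yy N X e (4 * u + 1) + yy N X e (4 * u + 2) + yy N X e (4 * u + 3) =
      if u ∈ X then 6 * N + 2 else 4 * N := by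
    have := he u hu
    simp only [yy, show 4 * u / 4 = u by omega, show (4 * u + 1) / 4 = u by omega,
      show (4 * u + 2) / 4 = u by omega, show (4 * u + 3) / 4 = u by omega]
    split_ifs <;> omega
  exact_mod_cast this

lemma cov {M : List (List Bool)} {X : Finset ℕ} {e : ℕ → ℕ} {x y : ℕ} (hy : y < 4 * M.length + 1)
    (hxy : x < y) (he : ∀ u < M.length, e u ≤ 2 * M.length)
    (h1 : y = x + 3 → x % 4 = 0 → x / 4 ∈ X)
    (h2 : y = 4 * M.length → (x % 4 = 0 → M.length ≤ e (x / 4)) ∧ (x % 4 = 3 → e (x / 4) ≤ M.length))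
    (h3 : y < 4 * M.length → x / 4 < y / 4 → ent M (x / 4) (y / 4) = false →
      x / 4 ∈ X ∨ y / 4 ∈ X ∨ e (x / 4) < e (y / 4)) :
    ww M x y ≤ yy M.length X e x + yy M.length X e y := by
  have a1 := he (x / 4) (by omega)
  unfold ww
  split_ifs with c1 c2 c3 c4 c5 c6 <;> try omega
  · have := h2 c1
    simp only [yy]; split_ifs <;> omega
  · simp only [yy, ← c3]; split_ifs <;> omega
  · simp only [yy, ← c3, h1 c5 (by omega)]; split_ifs <;> omega
  · have := h3 (by omega) (by omega) c6.2.2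
    simp only [yy]
    by_cases d1 : x / 4 ∈ X <;> by_cases d2 : y / 4 ∈ X <;> simp only [d1, d2] at this ⊢ <;>
      simp only [if_true, if_false, false_or] at this ⊢ <;> split_ifs <;> omega

lemma correct (M : List (List Bool)) (k : ℕ) (hM : IsGraph M) (h2 : 2 ≤ k) (hk : k ≤ M.length) :
    HasClq M k ↔ EdgeAdd (red (M, k)) := by
  classical
  have wt_eq : ∀ x y, x < y → y < 4 * M.length + 1 →
      wt (matN (4 * M.length + 1) (ww M)) x y = ww M x y := fun x y h1 h2 =>
    (arc_matN _ _ _ _).trans (if_pos (by omega))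
  simp only [EdgeAdd, red, mat_length, List.length_range, entry_mat]
  have seg : ∀ u < M.length, ed M (4 * u) (4 * u + 1) ∧ ed M (4 * u + 1) (4 * u + 2) ∧
      ed M (4 * u + 2) (4 * u + 3) ∧ ed M (4 * u) (4 * M.length) ∧ ed M (4 * u + 3) (4 * M.length) ∧
      ww M (4 * u) (4 * u + 1) = 2 * M.length ∧ ww M (4 * u + 1) (4 * u + 2) = 2 * M.length ∧
      ww M (4 * u + 2) (4 * u + 3) = 2 * M.length ∧ ww M (4 * u) (4 * M.length) = M.length ∧
      ww M (4 * u + 3) (4 * M.length) = M.length ∧ ww M (4 * u) (4 * u + 3) = 4 * M.length + 2 := by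
    intro u hu
    have : ww M (4 * u) (4 * u + 1) = 2 * M.length ∧ ww M (4 * u + 1) (4 * u + 2) = 2 * M.length ∧
      ww M (4 * u + 2) (4 * u + 3) = 2 * M.length ∧ ww M (4 * u) (4 * M.length) = M.length ∧
      ww M (4 * u + 3) (4 * M.length) = M.length ∧ ww M (4 * u) (4 * u + 3) = 4 * M.length + 2 := by
      refine ⟨?_, ?_, ?_, ?_, ?_, ?_⟩ <;> unfold ww <;> split_ifs <;> omega
    obtain ⟨a, b, c, d, e, f⟩ := this
    exact ⟨⟨by omega, by omega, by omega⟩, ⟨by omega, by omega, by omega⟩, ⟨by omega, by omega, by omega⟩,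
      ⟨by omega, by omega, by omega⟩, ⟨by omega, by omega, by omega⟩, a, b, c, d, e, f⟩
  constructor
  · rintro ⟨S, s1, s2, s3⟩
    obtain ⟨X, hX⟩ : ∃ X, X = range M.length \ S := ⟨_, rfl⟩
    have x1 : ∀ u, u ∈ X ↔ u < M.length ∧ u ∉ S := by simp [hX]
    refine ⟨⟨mat_row _ _, fun i => ?_, fun i j => ?_⟩, X.image fun u => (4 * u, 4 * u + 3),
      card_image_le.trans ?_, fun p hp => ?_, ?_⟩
    · rw [entry_mat]; simp [ed]
    · rw [entry_mat, entry_mat]; tauto
    · rw [hX, card_sdiff_of_subset fun u hu => mem_range.2 (s1 u hu), s2, card_range]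
    · obtain ⟨u, hu, rfl⟩ := mem_image.1 hp
      have := (x1 u).1 hu
      refine ⟨by omega, by omega, ?_⟩
      rintro ⟨-, -, h | h⟩ <;> unfold ed at h <;> omega
    obtain ⟨E, hE⟩ : ∃ E : ℕ → ℕ → Prop, E = fun u v => (u < 4 * M.length + 1 ∧ v < 4 * M.length + 1 ∧
      (ed M u v ∨ ed M v u)) ∨ (u, v) ∈ X.image fun u => (4 * u, 4 * u + 3) := ⟨_, rfl⟩
    rw [← hE]
    have e1 : ∀ u v, u < v → E u v → v < 4 * M.length + 1 ∧ (v = u + 3 → u % 4 = 0 → u / 4 ∈ X) := by
      intro u v h e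
      simp only [hE, ed, mem_image, Prod.mk.injEq] at e
      rcases e with e | ⟨a, ha, rfl, rfl⟩
      · omega
      · have := (x1 a).1 ha
        exact ⟨by omega, fun _ _ => by simpa using ha⟩
    have c : IsCover E (matN (4 * M.length + 1) (ww M)) fun v => yy M.length X (fun _ => M.length) v := by
      refine ⟨fun _ => Nat.cast_nonneg _, fun u v h e => ?_⟩
      rw [wt_eq u v h (e1 u v h e).1]
      beta_reduce
      exact_mod_cast cov (e := fun _ => M.length) (e1 u v h e).1 h (fun _ _ => by omega)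
        (e1 u v h e).2 (by simp)
        fun a b c => by
          by_contra! d
          simp only [x1] at d
          rw [s3 _ (by by_contra; exact d.1 ⟨by omega, this⟩) _
            (by by_contra; exact d.2.1 ⟨by omega, this⟩) (by omega)] at c
          simp at c
    let g : ℕ × ℕ → ℕ × ℕ := fun q => if q.1 ∈ X then (if q.2 = 0 then (4 * q.1, 4 * q.1 + 3) else
      (4 * q.1 + 1, 4 * q.1 + 2)) else (4 * q.1 + 2 * q.2, 4 * q.1 + 2 * q.2 + 1)
    have gd : ∀ p ∈ range M.length ×ˢ range 2, ∀ q ∈ range M.length ×ˢ range 2, p ≠ q →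
        (g p).1 ≠ (g q).1 ∧ (g p).1 ≠ (g q).2 ∧ (g p).2 ≠ (g q).1 ∧ (g p).2 ≠ (g q).2 := by
      rintro ⟨a, i⟩ hp ⟨b, j⟩ hq e
      simp only [mem_product, mem_range, ne_eq, Prod.mk.injEq, g] at *
      by_cases c : a = b
      · subst c; split_ifs <;> simp only <;> omega
      · split_ifs <;> simp only <;> omega
    have m1 : IsMatching E ((range M.length ×ˢ range 2).image g) := by
      refine ⟨fun p hp => ?_, fun p hp q hq e => ?_⟩
      · obtain ⟨⟨a, i⟩, h, rfl⟩ := mem_image.1 hp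
        simp only [mem_product, mem_range] at h
        have := seg a h.1
        simp only [g, hE]
        split_ifs with c1 c2
        · exact ⟨by simp, Or.inr (mem_image_of_mem _ c1)⟩
        · exact ⟨by simp, Or.inl ⟨by omega, by omega, Or.inl this.2.1⟩⟩
        · refine ⟨by simp, Or.inl ⟨by omega, by omega, Or.inl ?_⟩⟩
          obtain rfl | rfl : i = 0 ∨ i = 1 := by omega
          exacts [this.1, this.2.2.1]
      · obtain ⟨a, ha, rfl⟩ := mem_image.1 hp
        obtain ⟨b, hb, rfl⟩ := mem_image.1 hq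
        exact gd a ha b hb fun c => e (c ▸ rfl)
    have m2 : ∑ p ∈ (range M.length ×ˢ range 2).image g,
        (wt (matN (4 * M.length + 1) (ww M)) p.1 p.2 : ℝ) =
        ∑ v ∈ range (4 * M.length + 1), (yy M.length X (fun _ => M.length) v : ℝ) := by
      rw [sum_yy fun _ _ => by omega, sum_image fun p hp q hq e => by
        by_contra c; exact (gd p hp q hq c).1 (congrArg _ e), sum_product]
      refine sum_congr rfl fun u hu => ?_
      have hu := mem_range.1 hu
      have := seg u hu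
      simp only [sum_range_succ, sum_range_zero, g]
      split_ifs <;> first | contradiction | skip
      all_goals simp only [mul_zero, add_zero, mul_one, add_assoc, Nat.reduceAdd]
      all_goals rw [wt_eq _ _ (by omega) (by omega), wt_eq _ _ (by omega) (by omega)]
      all_goals simp only [this]; push_cast; ring
    have wk : ∀ m y, IsMatching E m → IsCover E (matN (4 * M.length + 1) (ww M)) y →
        ∑ p ∈ m, (wt (matN (4 * M.length + 1) (ww M)) p.1 p.2 : ℝ) ≤
        ∑ v ∈ range (4 * M.length + 1), y v := fun m y hm hy =>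
      weak hm (fun p hp => (e1 _ _ (hm.1 p hp).1 (hm.1 p hp).2).1) hy.1
        fun p hp => hy.2 _ _ (hm.1 p hp).1 (hm.1 p hp).2
    refine ⟨_, ⟨⟨_, m1, rfl⟩, ?_⟩, ⟨_, c, m2⟩, ?_⟩
    · rintro _ ⟨m, hm, rfl⟩; rw [m2]; exact wk m _ hm c
    · rintro _ ⟨y, hy, rfl⟩; exact wk _ y m1 hy
  · rintro ⟨-, F, f1, f2, t, ⟨⟨m, hm, e1⟩, -⟩, ⟨y, hy, e2⟩, -⟩
    obtain ⟨X, hX⟩ : ∃ X, X = (range M.length).filter fun u => (4 * u, 4 * u + 3) ∈ F := ⟨_, rfl⟩
    have x1 : ∀ u, u ∈ X ↔ u < M.length ∧ (4 * u, 4 * u + 3) ∈ F := by simp [hX]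
    have x2 : X.card ≤ F.card := card_le_card_of_injOn (fun u => (4 * u, 4 * u + 3))
      (fun u hu => ((x1 u).1 hu).2) fun u _ v _ e => by simp only [Prod.mk.injEq] at e; omega
    have m1 : ∀ p ∈ m, p.1 < p.2 ∧ p.2 < 4 * M.length + 1 ∧
        (p.2 = p.1 + 3 → p.1 % 4 = 0 → p.1 / 4 ∈ X) := fun p hp => by
      obtain ⟨a, b | b⟩ := hm.1 p hp
      · simp only [ed] at b; omega
      · have := f2 _ b
        refine ⟨a, this.2.1, fun c d => (x1 _).2 ⟨by omega, ?_⟩⟩
        rwa [show 4 * (p.1 / 4) = p.1 by omega, ← c]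
    have up : t ≤ ∑ u ∈ range M.length, if u ∈ X then (6 * M.length + 2 : ℝ) else 4 * M.length := by
      obtain ⟨e, h1, h2, h3⟩ : ∃ e : ℕ → ℕ, (∀ u < M.length, e u ≤ 2 * M.length) ∧
          (∀ u v, u < v → e u < e v) ∧ ∀ p ∈ m, p.2 = 4 * M.length →
          (p.1 % 4 = 0 → M.length ≤ e (p.1 / 4)) ∧ (p.1 % 4 = 3 → e (p.1 / 4) ≤ M.length) := by
        by_cases c : ∃ q ∈ m, q.2 = 4 * M.length ∧ q.1 % 4 = 3
        · obtain ⟨q, q1, q2, q3⟩ := c
          refine ⟨id, fun u _ => by simp; omega, fun _ _ => id, fun p hp e => ?_⟩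
          obtain rfl : p = q := by by_contra c; exact (hm.2 p hp q q1 c).2.2.2 (e.trans q2.symm)
          have := m1 p hp
          simp only [id]; omega
        · exact ⟨fun u => M.length + u, fun u _ => by simp only; omega, fun _ _ _ => by simp only; omega,
            fun p hp e => ⟨fun _ => by simp, fun h => absurd ⟨p, hp, e, h⟩ c⟩⟩
      rw [e1, ← sum_yy h1]
      refine weak hm (fun p hp => (m1 p hp).2.1) (fun _ => Nat.cast_nonneg _) fun p hp => ?_
      obtain ⟨a, b, c⟩ := m1 p hp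
      rw [wt_eq _ _ a b]
      exact_mod_cast cov b a h1 c (h3 p hp) fun _ d _ => Or.inr (Or.inr (h2 _ _ d))
    have cv : ∀ a b, b < 4 * M.length + 1 → ed M a b → (ww M a b : ℝ) ≤ y a + y b := fun a b h e =>
      wt_eq a b e.1 h ▸ hy.2 a b e.1 (Or.inl ⟨e.1.trans h, h, Or.inl e⟩)
    have sg : ∀ u < M.length, (2 * M.length : ℝ) ≤ y (4 * u) + y (4 * u + 1) ∧
        (2 * M.length : ℝ) ≤ y (4 * u + 1) + y (4 * u + 2) ∧
        (2 * M.length : ℝ) ≤ y (4 * u + 2) + y (4 * u + 3) ∧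
        (M.length : ℝ) ≤ y (4 * u) + y (4 * M.length) ∧
        (M.length : ℝ) ≤ y (4 * u + 3) + y (4 * M.length) := fun u hu => by
      obtain ⟨a1, a2, a3, a4, a5, b⟩ := seg u hu
      have c1 := cv _ _ (by omega) a1
      have c2 := cv _ _ (by omega) a2
      have c3 := cv _ _ (by omega) a3
      have c4 := cv _ _ (by omega) a4
      have c5 := cv _ _ (by omega) a5
      simp only [b, Nat.cast_mul, Nat.cast_ofNat] at c1 c2 c3 c4 c5
      exact ⟨c1, c2, c3, c4, c5⟩
    have key : ∀ u v, u < v → v < M.length → u ∉ X → v ∉ X → ent M u v = true := by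
      intro u v h hv hu' hv'
      by_contra c
      have a0 : ww M (4 * u + 3) (4 * v) = 2 * M.length + 1 := by
        unfold ww
        rw [if_neg (by omega), if_neg (by omega), if_pos ⟨by omega, by omega, by
          rw [show (4 * u + 3) / 4 = u by omega, show 4 * v / 4 = v by omega]; simpa using c⟩]
      have a1 := cv (4 * u + 3) (4 * v) (by omega) ⟨by omega, by omega, by omega⟩
      rw [a0] at a1
      have a2 := add_le_sum (s := range M.length) (f := fun u => y (4 * u) + y (4 * u + 1) +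
          y (4 * u + 2) + y (4 * u + 3) - if u ∈ X then (6 * M.length + 2 : ℝ) else 4 * M.length)
        (fun u hu => by
          have hu := mem_range.1 hu
          have b1 := sg u hu
          split_ifs with d
          · have b2 := hy.2 (4 * u) (4 * u + 3) (by omega) (Or.inr ((x1 u).1 d).2)
            rw [wt_eq _ _ (by omega) (by omega), (seg u hu).2.2.2.2.2.2.2.2.2.2] at b2
            push_cast at b2; linarith
          · linarith) (mem_range.2 (h.trans hv)) (mem_range.2 hv) h.ne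
      rw [sum_sub_distrib, if_neg hu', if_neg hv'] at a2
      rw [sum4] at e2
      have b1 := sg u (by omega)
      have b2 := sg v hv
      push_cast at a1
      linarith
    obtain ⟨S, s1, s2⟩ := exists_subset_card_eq (s := range M.length \ X) (n := k) (by
      have := le_card_sdiff X (range M.length)
      rw [card_range] at this; omega)
    have s3 : ∀ u ∈ S, u < M.length ∧ u ∉ X := fun u hu => by simpa using s1 hu
    refine ⟨S, fun u hu => (s3 u hu).1, s2, fun u hu v hv e => ?_⟩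
    rcases lt_or_gt_of_ne e with h | h
    · exact key u v h (s3 v hv).1 (s3 u hu).2 (s3 v hv).2
    · exact hM.2.2 _ _ (key v u h (s3 u hu).1 (s3 v hv).2 (s3 u hu).2)

theorem result : NPHard (Lang EdgeAdd) := (Hard.of_clique red_pt correct).npHard

end Pool.Agent.Results.MP_6f953e_lc.NPHard
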